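import Pool.Agent.H32.RK.TargetsE
import Pool.Agent.H58.RQ.RFX
import Pool.Agent.H68.RQ.FIB

/-!
# RFX over a number field: the number of the pairs which are bad at a given vector

Adaptation of `Pool.Agent.H58.RQ.RFX` (helper58).
-/

set_option autoImplicit false

open Finset NumberField Pool.Agent.H32.RQ Pool.Agent.H32.RK

namespace Pool.Agent.H68.RK

open Pool.Agent.H58.RQ (mon mon_sym mon_inj PP card_PP)

lemma sum_split {n : ℕ} (i₀ : Fin (n + 1)) (g : Mon (n + 1) → ℂ) :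
    ∑ p, g p = ∑ p ∈ Finset.univ \ PP i₀, g p +
      (g (mon i₀ i₀) + ∑ j : Fin n, g (mon i₀ (i₀.succAbove j))) := by
  rw [← Finset.sum_sdiff (Finset.subset_univ (PP i₀))]
  congr 1
  unfold PP
  rw [Finset.sum_image fun a _ b _ h => mon_inj i₀ h, Fin.sum_univ_succAbove _ i₀]

/-- the weight of a monomial in a derivative -/
noncomputable def wt {s : ℕ} (x : Fin s → ℂ) (j : Fin s) (p : Mon s) : ℂ :=
  (if p.1.1 = j then x p.1.2 else 0) + (if p.1.2 = j then x p.1.1 else 0)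

lemma wt_le {s : ℕ} {x : Fin s → ℂ} (hx : ∀ j, ‖x j‖ ≤ 1) (j : Fin s) (p : Mon s) :
    ‖wt x j p‖ ≤ 2 := by
  unfold wt
  refine (norm_add_le _ _).trans ?_
  have h1 : ‖(if p.1.1 = j then x p.1.2 else 0)‖ ≤ 1 := by
    split_ifs
    · exact hx _
    · simp
  have h2 : ‖(if p.1.2 = j then x p.1.1 else 0)‖ ≤ 1 := by
    split_ifs
    · exact hx _
    · simp
  linarith

lemma dq_split {n : ℕ} (i₀ : Fin (n + 1)) (f : Mon (n + 1) → ℂ) (x : Fin (n + 1) → ℂ)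
    (hx : x i₀ = 1) (j : Fin n) :
    dq f x (i₀.succAbove j) = f (mon i₀ (i₀.succAbove j)) +
      ∑ p ∈ Finset.univ \ PP i₀, f p * wt x (i₀.succAbove j) p := by
  have hw : ∀ l, wt x (i₀.succAbove j) (mon i₀ l) = if l = i₀.succAbove j then 1 else 0 := by
    intro l
    have h1 := mon_sym (fun a b => (if a = i₀.succAbove j then x b else 0) +
      (if b = i₀.succAbove j then x a else 0)) (fun a b => add_comm _ _) i₀ l
    unfold wt
    rw [h1]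
    have h2 : ¬ i₀ = i₀.succAbove j := (Fin.succAbove_ne i₀ j).symm
    rw [if_neg h2, zero_add, hx]
  have h0 : dq f x (i₀.succAbove j) = ∑ p, f p * wt x (i₀.succAbove j) p := rfl
  rw [h0, sum_split i₀, hw, if_neg (Fin.succAbove_ne i₀ j).symm, mul_zero, zero_add, add_comm]
  congr 1
  rw [Finset.sum_eq_single j]
  · rw [hw, if_pos rfl, mul_one]
  · intro l _ hl
    rw [hw, if_neg (fun h => hl (Fin.succAbove_right_injective h)), mul_zero]
  · intro h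
    exact absurd (Finset.mem_univ _) h

section

variable {α : Type}

/-- the pairs which differ only at the square of the variable with value one -/
lemma fib_sq {n : ℕ} (i₀ : Fin (n + 1)) (x : Fin (n + 1) → ℂ) (hx : x i₀ = 1)
    (Y : Finset α) (σ : α → ℂ) (R : ℝ) (k : ℕ)
    (hk : ∀ (θ : ℂ) (T : Finset α), (∀ a ∈ T, a ∈ Y ∧ ‖σ a - θ‖ ≤ R) → T.card ≤ k)
    (S : Finset (Fin 2 → Mon (n + 1) → α)) (e₁ : Fin 2 → Mon (n + 1) → α)
    (hY : ∀ e ∈ S, ∀ i p, e i p ∈ Y)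
    (h : ∀ e ∈ S, ∀ i p, p ≠ mon i₀ i₀ → e i p = e₁ i p)
    (hq : ∀ e ∈ S, ∀ i, ‖qf (fun p => σ (e i p)) x‖ ≤ R) : S.card ≤ k ^ 2 := by
  classical
  have hm : x (mon i₀ i₀).1.1 * x (mon i₀ i₀).1.2 = 1 := by
    have h1 : x (mon i₀ i₀).1.1 * x (mon i₀ i₀).1.2 = x i₀ * x i₀ :=
      mon_sym (fun a b => x a * x b) (fun a b => mul_comm _ _) i₀ i₀
    rw [h1, hx, one_mul]
  have hval : ∀ e ∈ S, ∀ i, qf (fun p => σ (e i p)) x = σ (e i (mon i₀ i₀)) -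
      (σ (e₁ i (mon i₀ i₀)) - qf (fun p => σ (e₁ i p)) x) := by
    intro e he i
    unfold qf
    rw [← Finset.add_sum_erase Finset.univ _ (Finset.mem_univ (mon i₀ i₀)),
      ← Finset.add_sum_erase Finset.univ (fun p => σ (e₁ i p) * (x p.1.1 * x p.1.2))
        (Finset.mem_univ (mon i₀ i₀)), hm]
    have h2 : ∑ p ∈ Finset.univ.erase (mon i₀ i₀), σ (e i p) * (x p.1.1 * x p.1.2) =
        ∑ p ∈ Finset.univ.erase (mon i₀ i₀), σ (e₁ i p) * (x p.1.1 * x p.1.2) := by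
      refine Finset.sum_congr rfl fun p hp => ?_
      rw [h e he i p (Finset.ne_of_mem_erase hp)]
    rw [h2]
    ring
  have hI : ∀ i, (S.image fun e => e i (mon i₀ i₀)).card ≤ k := by
    intro i
    refine hk (σ (e₁ i (mon i₀ i₀)) - qf (fun p => σ (e₁ i p)) x) _ ?_
    intro u hu
    rw [Finset.mem_image] at hu
    obtain ⟨e, he, rfl⟩ := hu
    refine ⟨hY e he _ _, ?_⟩
    rw [← hval e he i]
    exact hq e he i
  have hle : S.card ≤ ((S.image fun e => e 0 (mon i₀ i₀)) ×ˢ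
      (S.image fun e => e 1 (mon i₀ i₀))).card := by
    refine Finset.card_le_card_of_injOn
      (fun e => (e 0 (mon i₀ i₀), e 1 (mon i₀ i₀))) ?_ ?_
    · intro e he
      exact Finset.mem_coe.2 (Finset.mem_product.2
        ⟨Finset.mem_image_of_mem _ he, Finset.mem_image_of_mem _ he⟩)
    · intro e he e' he' hee
      have h0 : e 0 (mon i₀ i₀) = e' 0 (mon i₀ i₀) := congrArg Prod.fst hee
      have h1 : e 1 (mon i₀ i₀) = e' 1 (mon i₀ i₀) := congrArg Prod.snd hee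
      have h01 : ∀ i, e i (mon i₀ i₀) = e' i (mon i₀ i₀) := Fin.forall_fin_two.2 ⟨h0, h1⟩
      funext i p
      by_cases hp : p = mon i₀ i₀
      · rw [hp]
        exact h01 i
      · rw [h e he i p hp, h e' he' i p hp]
  rw [Finset.card_product] at hle
  calc _ ≤ _ := hle
    _ ≤ k * k := Nat.mul_le_mul (hI 0) (hI 1)
    _ = k ^ 2 := by ring

lemma a_bd {n : ℕ} (i₀ : Fin (n + 1)) (x : Fin (n + 1) → ℂ) (hx : ∀ j, ‖x j‖ ≤ 1) (A : ℝ)
    (hA : 0 ≤ A) (f : Mon (n + 1) → ℂ) (hf : ∀ p, ‖f p‖ ≤ A) (j : Fin (n + 1)) :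
    ‖∑ p ∈ Finset.univ \ PP i₀, f p * wt x j p‖ ≤ 2 * md (n + 1) * A := by
  refine (norm_sum_le _ _).trans ?_
  calc ∑ p ∈ Finset.univ \ PP i₀, ‖f p * wt x j p‖
      ≤ ∑ _p ∈ Finset.univ \ PP i₀, (A * 2) := by
        refine Finset.sum_le_sum fun p _ => ?_
        rw [norm_mul]
        exact mul_le_mul (hf p) (wt_le hx _ _) (norm_nonneg _) hA
    _ = ((Finset.univ \ PP i₀).card : ℝ) * (A * 2) := by
        rw [Finset.sum_const, nsmul_eq_mul]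
    _ ≤ (md (n + 1) : ℝ) * (A * 2) := by
        apply mul_le_mul_of_nonneg_right _ (by positivity)
        have : (Finset.univ \ PP i₀).card ≤ md (n + 1) := by
          unfold md
          rw [← Finset.card_univ]
          exact Finset.card_le_card (Finset.sdiff_subset)
        exact_mod_cast this
    _ = 2 * md (n + 1) * A := by ring

/-- the pairs with given coefficients at the monomials which do not contain the index -/
lemma fib_all {n : ℕ} (i₀ : Fin (n + 1)) (x : Fin (n + 1) → ℂ) (hx0 : x i₀ = 1)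
    (hx1 : ∀ j, ‖x j‖ ≤ 1) (Y : Finset α) (σ : α → ℂ) (A B R M Z : ℝ) (k : ℕ) (hB0 : 0 ≤ B)
    (hB : ∀ a ∈ Y, ‖σ a‖ ≤ B) (hBA : 2 * md (n + 1) * B ≤ A)
    (hk : ∀ (θ : ℂ) (T : Finset α), (∀ a ∈ T, a ∈ Y ∧ ‖σ a - θ‖ ≤ R) → T.card ≤ k)
    (hZ : ∀ a b : Fin n → ℂ, (∀ j, ‖a j‖ ≤ A) → (∀ j, ‖b j‖ ≤ A) →
      ∀ S : Finset ((Fin n → α) × (Fin n → α)),
      (∀ q ∈ S, (∀ j, q.1 j ∈ Y ∧ q.2 j ∈ Y) ∧ ∀ j l,
        ‖(σ (q.1 j) + a j) * (σ (q.2 l) + b l) - (σ (q.1 l) + a l) * (σ (q.2 j) + b j)‖ ≤ M) →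
      (S.card : ℝ) ≤ Z)
    (Eb : Finset (Fin 2 → Mon (n + 1) → α)) (e₀ : Fin 2 → Mon (n + 1) → α) (he₀ : e₀ ∈ Eb)
    (hc : ∀ e ∈ Eb, ∀ i, ∀ p ∉ PP i₀, e i p = e₀ i p)
    (hY : ∀ e ∈ Eb, ∀ i p, e i p ∈ Y)
    (hq : ∀ e ∈ Eb, ∀ i, ‖qf (fun p => σ (e i p)) x‖ ≤ R)
    (hj : ∀ e ∈ Eb, ∀ j l, ‖jm (fun i p => σ (e i p)) x j l‖ ≤ M) :
    (Eb.card : ℝ) ≤ (k : ℝ) ^ 2 * Z := by
  classical
  obtain ⟨a, ha⟩ : ∃ a : Fin 2 → Fin n → ℂ, ∀ i j, a i j =
      ∑ p ∈ Finset.univ \ PP i₀, σ (e₀ i p) * wt x (i₀.succAbove j) p :=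
    ⟨_, fun _ _ => rfl⟩
  have hab : ∀ i j, ‖a i j‖ ≤ A := by
    intro i j
    rw [ha]
    exact (a_bd i₀ x hx1 B hB0 _ (fun p => hB _ (hY e₀ he₀ i p)) _).trans hBA
  obtain ⟨F, hF⟩ : ∃ F : (Fin 2 → Mon (n + 1) → α) → (Fin n → α) × (Fin n → α), ∀ e, F e =
      (fun j => e 0 (mon i₀ (i₀.succAbove j)), fun j => e 1 (mon i₀ (i₀.succAbove j))) :=
    ⟨_, fun _ => rfl⟩
  have hdq : ∀ e ∈ Eb, ∀ i j, dq (fun p => σ (e i p)) x (i₀.succAbove j) =
      σ (e i (mon i₀ (i₀.succAbove j))) + a i j := by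
    intro e he i j
    rw [dq_split i₀ _ x hx0 j, ha]
    congr 1
    refine Finset.sum_congr rfl fun p hp => ?_
    rw [hc e he i p (Finset.mem_sdiff.1 hp).2]
  have htc : ((Eb.image F).card : ℝ) ≤ Z := by
    refine hZ (a 0) (a 1) (hab 0) (hab 1) _ ?_
    intro q hq'
    obtain ⟨e, he, rfl⟩ := Finset.mem_image.1 hq'
    rw [hF]
    refine ⟨fun j => ⟨hY e he _ _, hY e he _ _⟩, fun j l => ?_⟩
    have h3 := hj e he (i₀.succAbove j) (i₀.succAbove l)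
    unfold jm at h3
    rw [hdq e he 0, hdq e he 0, hdq e he 1, hdq e he 1] at h3
    exact h3
  have hfib2 : ∀ q ∈ Eb.image F, (Eb.filter fun e => F e = q).card ≤ k ^ 2 := by
    intro q _
    rcases Finset.eq_empty_or_nonempty (Eb.filter fun e => F e = q) with h0 | ⟨e₁, he₁⟩
    · rw [h0, Finset.card_empty]
      exact Nat.zero_le _
    refine fib_sq i₀ x hx0 Y σ R k hk _ e₁ (fun e he => hY e (Finset.mem_filter.1 he).1) ?_
      fun e he => hq e (Finset.mem_filter.1 he).1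
    intro e he i p hp
    rw [Finset.mem_filter] at he he₁
    by_cases hpP : p ∈ PP i₀
    · unfold PP at hpP
      rw [Finset.mem_image] at hpP
      obtain ⟨l, -, rfl⟩ := hpP
      have hFF : F e = F e₁ := he.2.trans he₁.2.symm
      rw [hF, hF] at hFF
      rcases Fin.eq_self_or_eq_succAbove i₀ l with hl | ⟨j, hl⟩
      · rw [hl] at hp
        exact absurd rfl hp
      · rw [hl]
        have h4 : e 0 (mon i₀ (i₀.succAbove j)) = e₁ 0 (mon i₀ (i₀.succAbove j)) :=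
          congrFun (congrArg Prod.fst hFF) j
        have h5 : e 1 (mon i₀ (i₀.succAbove j)) = e₁ 1 (mon i₀ (i₀.succAbove j)) :=
          congrFun (congrArg Prod.snd hFF) j
        have h6 : ∀ i, e i (mon i₀ (i₀.succAbove j)) = e₁ i (mon i₀ (i₀.succAbove j)) :=
          Fin.forall_fin_two.2 ⟨h4, h5⟩
        exact h6 i
    · rw [hc e he.1 i p hpP, hc e₁ he₁.1 i p hpP]
  have hcard := Finset.card_le_mul_card_image_of_maps_to
    (fun e he => Finset.mem_image_of_mem F he) _ hfib2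
  calc (Eb.card : ℝ) ≤ (k : ℝ) ^ 2 * (Eb.image F).card := by exact_mod_cast hcard
    _ ≤ (k : ℝ) ^ 2 * Z := mul_le_mul_of_nonneg_left htc (by positivity)

end

theorem pf_RFX (hRUV : Pool.Agent.H32.RK.T_RUV) : Pool.Agent.H32.RK.T_RFX := by
  classical
  intro e s C₁ K₁ he hs hC₁ hK₁
  obtain ⟨n, rfl⟩ : ∃ n, s = n + 1 := ⟨s - 1, by omega⟩
  obtain ⟨K', hK'⟩ : ∃ K' : ℝ, K' = K₁ + 2 * md (n + 1) * C₁ := ⟨_, rfl⟩
  have hmd0 : (0 : ℝ) ≤ 2 * md (n + 1) * C₁ := by positivity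
  have hKK : K₁ ≤ K' := by
    rw [hK']
    linarith
  obtain ⟨CR, hCR, hRR⟩ := hRUV e n C₁ K' he (by omega) hC₁ (hK₁.trans hKK)
  have hbig : 1 ≤ C₁ ^ 2 * K₁ ^ (2 * e) * CR := by
    have h1 : 1 ≤ C₁ ^ 2 := one_le_pow₀ hC₁
    have h2 : 1 ≤ K₁ ^ (2 * e) := one_le_pow₀ hK₁
    calc (1 : ℝ) = 1 * 1 * 1 := by norm_num
      _ ≤ _ := by gcongr
  refine ⟨C₁ ^ 2 * K₁ ^ (2 * e) * CR + CR, by linarith, ?_⟩
  intro α X σ A N hN hCN hEq i₀ x hx0 hx1 S hS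
  have hNr : (1 : ℝ) ≤ N := by exact_mod_cast hN
  have hN0 : (0 : ℝ) < N := by linarith
  have hCRN : CR * N ≤ A := by
    refine le_trans ?_ hCN
    apply mul_le_mul_of_nonneg_right _ hN0.le
    linarith
  have hNA : (N : ℝ) ≤ A := by
    refine le_trans ?_ hCRN
    calc (N : ℝ) = 1 * N := (one_mul _).symm
      _ ≤ _ := mul_le_mul_of_nonneg_right hCR hN0.le
  have hA0 : 0 < A := lt_of_lt_of_le hN0 hNA
  have hR1 : 1 ≤ K₁ * A / N := by
    rw [le_div_iff₀ hN0, one_mul]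
    calc (N : ℝ) ≤ A := hNA
      _ = 1 * A := (one_mul _).symm
      _ ≤ K₁ * A := mul_le_mul_of_nonneg_right hK₁ hA0.le
  -- the number of points in discs
  obtain ⟨k, hkd⟩ : ∃ k : ℕ, k = ⌊C₁ * (K₁ / N) ^ e * X.card⌋₊ := ⟨_, rfl⟩
  have hk0 : 0 ≤ C₁ * (K₁ / N) ^ e * X.card := by positivity
  have hkr : (k : ℝ) ≤ C₁ * (K₁ / N) ^ e * X.card := by
    rw [hkd]
    exact Nat.floor_le hk0
  have hk : ∀ (θ : ℂ) (T : Finset α), (∀ a ∈ T, a ∈ X ∧ ‖σ a - θ‖ ≤ K₁ * A / N) →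
      T.card ≤ k := by
    intro θ T hT
    rw [hkd]
    apply Nat.le_floor
    have h1 := hEq.2 θ (K₁ * A / N) hR1
    have h2 : T.card ≤ (X.filter fun a => ‖σ a - θ‖ ≤ K₁ * A / N).card :=
      Finset.card_le_card fun a ha => Finset.mem_filter.2 (hT a ha)
    have h3 : (T.card : ℝ) * A ^ e ≤ C₁ * (K₁ * A / N) ^ e * X.card := by
      refine le_trans ?_ h1
      apply mul_le_mul_of_nonneg_right _ (by positivity)
      exact_mod_cast h2
    have h4 : C₁ * (K₁ * A / N) ^ e * X.card = C₁ * (K₁ / N) ^ e * X.card * A ^ e := by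
      rw [show K₁ * A / N = K₁ / N * A by ring, mul_pow]
      ring
    rw [h4] at h3
    exact le_of_mul_le_mul_right h3 (by positivity)
  obtain ⟨Z, hZ⟩ : ∃ Z : ℝ, Z = CR * (X.card : ℝ) ^ (2 * n) / (N : ℝ) ^ (e * (n - 1)) := ⟨_, rfl⟩
  have hZ0 : 0 ≤ Z := by rw [hZ]; positivity
  have hM : K₁ * A ^ 2 / N ≤ K' * A ^ 2 / N := by
    apply div_le_div_of_nonneg_right _ hN0.le
    exact mul_le_mul_of_nonneg_right hKK (by positivity)
  have hRX : ∀ a b : Fin n → ℂ, (∀ j, ‖a j‖ ≤ K' * A) → (∀ j, ‖b j‖ ≤ K' * A) →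
      ∀ S : Finset ((Fin n → α) × (Fin n → α)),
      (∀ q ∈ S, (∀ j, q.1 j ∈ X ∧ q.2 j ∈ X) ∧ ∀ j l,
        ‖(σ (q.1 j) + a j) * (σ (q.2 l) + b l) - (σ (q.1 l) + a l) * (σ (q.2 j) + b j)‖ ≤
          K' * A ^ 2 / N) → (S.card : ℝ) ≤ Z := by
    intro a b ha hb S hS
    rw [hZ, le_div_iff₀ (by positivity)]
    exact hRR α X σ A N hN hCRN hEq a b ha hb S hS
  have hfib : ∀ c : Fin 2 → Mon (n + 1) → α,
      (S.filter fun e => ∀ i, ∀ p, p ∉ PP i₀ → e i p = c i p).card ≤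
        ⌊(k : ℝ) ^ 2 * Z⌋₊ := by
    intro c
    rcases Finset.eq_empty_or_nonempty
      (S.filter fun e => ∀ i, ∀ p, p ∉ PP i₀ → e i p = c i p) with h0 | ⟨e₀, he₀⟩
    · rw [h0, Finset.card_empty]
      exact Nat.zero_le _
    apply Nat.le_floor
    refine fib_all i₀ x hx0 hx1 X σ (K' * A) (C₁ * A) (K₁ * A / N) (K' * A ^ 2 / N) Z k
      (by positivity) hEq.1 ?_ hk hRX _ e₀ he₀ (fun e he i p hp => by
        rw [(Finset.mem_filter.1 he).2 i p hp, (Finset.mem_filter.1 he₀).2 i p hp])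
      (fun e he => (hS e (Finset.mem_filter.1 he).1).1)
      (fun e he => (hS e (Finset.mem_filter.1 he).1).2.1)
      (fun e he j l => ((hS e (Finset.mem_filter.1 he).1).2.2 j l).trans hM)
    rw [hK']
    have : 0 ≤ K₁ * A := by positivity
    nlinarith
  have hfin := Pool.Agent.H68.RQ.pf_FIB α (n + 1) ⌊(k : ℝ) ^ 2 * Z⌋₊ X (PP i₀) S
    (fun e he => (hS e he).1) hfib
  rw [card_PP] at hfin
  have hmd : n + 1 ≤ md (n + 1) := by
    have h1 := Finset.card_le_univ (PP i₀)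
    rw [card_PP] at h1
    exact h1
  have hB0 : 0 ≤ (k : ℝ) ^ 2 * Z := by positivity
  have hfinr : (S.card : ℝ) ≤ (k : ℝ) ^ 2 * Z *
      (X.card : ℝ) ^ (2 * (md (n + 1) - (n + 1))) := by
    calc (S.card : ℝ) ≤ (⌊(k : ℝ) ^ 2 * Z⌋₊ : ℝ) *
          (X.card : ℝ) ^ (2 * (md (n + 1) - (n + 1))) := by
          exact_mod_cast hfin
      _ ≤ _ := by
          apply mul_le_mul_of_nonneg_right (Nat.floor_le hB0) (by positivity)
  have hBN : (k : ℝ) ^ 2 * Z * (N : ℝ) ^ (e * (n + 1)) ≤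
      C₁ ^ 2 * K₁ ^ (2 * e) * CR * (X.card : ℝ) ^ (2 * (n + 1)) := by
    calc (k : ℝ) ^ 2 * Z * (N : ℝ) ^ (e * (n + 1))
        ≤ (C₁ * (K₁ / N) ^ e * X.card) ^ 2 * Z * (N : ℝ) ^ (e * (n + 1)) := by
          gcongr
      _ = C₁ ^ 2 * K₁ ^ (2 * e) * CR * (X.card : ℝ) ^ (2 * (n + 1)) := by
          rw [hZ]
          have h1 : e * (n + 1) = e * (n - 1) + 2 * e := by
            obtain ⟨m, rfl⟩ : ∃ m, n = m + 1 := ⟨n - 1, by omega⟩
            rw [Nat.add_sub_cancel]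
            ring
          have h2 : (N : ℝ) ^ (e * (n + 1)) = (N : ℝ) ^ (e * (n - 1)) * (N : ℝ) ^ (2 * e) := by
            rw [h1, pow_add]
          rw [h2]
          have h3 : (N : ℝ) ^ (e * (n - 1)) ≠ 0 := by positivity
          have h4 : (N : ℝ) ^ (2 * e) ≠ 0 := by positivity
          have h5 : (X.card : ℝ) ^ (2 * (n + 1)) = (X.card : ℝ) ^ (2 * n) * (X.card : ℝ) ^ 2 := by
            rw [← pow_add]
            rfl
          have h6 : ((K₁ / N) ^ e) ^ 2 = K₁ ^ (2 * e) / (N : ℝ) ^ (2 * e) := by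
            rw [← pow_mul, mul_comm e 2, div_pow]
          rw [h5, mul_pow, mul_pow, h6]
          field_simp
  calc (S.card : ℝ) * (N : ℝ) ^ (e * (n + 1))
      ≤ (k : ℝ) ^ 2 * Z * (X.card : ℝ) ^ (2 * (md (n + 1) - (n + 1))) *
        (N : ℝ) ^ (e * (n + 1)) := mul_le_mul_of_nonneg_right hfinr (by positivity)
    _ = ((k : ℝ) ^ 2 * Z * (N : ℝ) ^ (e * (n + 1))) *
        (X.card : ℝ) ^ (2 * (md (n + 1) - (n + 1))) := by ring
    _ ≤ (C₁ ^ 2 * K₁ ^ (2 * e) * CR * (X.card : ℝ) ^ (2 * (n + 1))) *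
        (X.card : ℝ) ^ (2 * (md (n + 1) - (n + 1))) :=
        mul_le_mul_of_nonneg_right hBN (by positivity)
    _ = C₁ ^ 2 * K₁ ^ (2 * e) * CR * (X.card : ℝ) ^ (2 * md (n + 1)) := by
        have h5 : 2 * (n + 1) + 2 * (md (n + 1) - (n + 1)) = 2 * md (n + 1) := by omega
        rw [mul_assoc, ← pow_add, h5]
    _ ≤ (C₁ ^ 2 * K₁ ^ (2 * e) * CR + CR) * (X.card : ℝ) ^ (2 * md (n + 1)) := by
        apply mul_le_mul_of_nonneg_right _ (by positivity)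
        linarith

end Pool.Agent.H68.RK
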